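import Mathlib

set_option autoImplicit false

namespace Pool.Agent.X109.SH

open Finset Filter Topology

/-- `C(N, m) / C(N + m, m)` -/
noncomputable def tb (N m : ℕ) : ℝ := (N.choose m : ℝ) / ((N + m).choose m : ℝ)

theorem tb_nonneg (N m : ℕ) : 0 ≤ tb N m := by unfold tb; positivity

theorem ch_pos (N m : ℕ) : (0 : ℝ) < ((N + m).choose m : ℝ) := by
  exact_mod_cast Nat.choose_pos (Nat.le_add_left m N)

theorem tb_le_one (N m : ℕ) : tb N m ≤ 1 := by
  unfold tb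
  rw [div_le_one (ch_pos N m)]
  exact_mod_cast Nat.choose_le_choose m (Nat.le_add_right N m)

theorem tb_zero (N : ℕ) : tb N 0 = 1 := by simp [tb]

theorem tb_gt {N m : ℕ} (h : N < m) : tb N m = 0 := by
  simp [tb, Nat.choose_eq_zero_of_lt h]

theorem tb_succ (N m : ℕ) : tb N (m + 1) * (N + m + 1) = tb N m * (N - m) := by
  rcases lt_or_ge N m with h | h
  · rw [tb_gt h, tb_gt (by omega : N < m + 1)]
    ring
  · have h1 : (N.choose (m + 1) : ℝ) * (m + 1) = N.choose m * (N - m) := by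
      have := Nat.choose_succ_right_eq N m
      have h2 : ((N.choose (m + 1) * (m + 1) : ℕ) : ℝ) = ((N.choose m * (N - m) : ℕ) : ℝ) := by
        rw [this]
      push_cast [Nat.cast_sub h] at h2
      exact h2
    have h3 : (((N + (m + 1)).choose (m + 1) : ℕ) : ℝ) * (m + 1) = (N + m).choose m * (N + m + 1) := by
      have h2 : (((N + m + 1) * (N + m).choose m : ℕ) : ℝ) =
          (((N + m + 1).choose (m + 1) * (m + 1) : ℕ) : ℝ) := by
        rw [Nat.add_one_mul_choose_eq (N + m) m]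
      push_cast at h2
      rw [← add_assoc]
      linarith
    have hp1 := ch_pos N m
    have hp2 := ch_pos N (m + 1)
    have hm : (0 : ℝ) < m + 1 := by positivity
    have hn : (0 : ℝ) < N + m + 1 := by positivity
    unfold tb
    rw [div_mul_eq_mul_div, div_mul_eq_mul_div, div_eq_div_iff hp2.ne' hp1.ne']
    have e : (N.choose (m + 1) : ℝ) * (N + m + 1) * ((N + m).choose m : ℝ) * (m + 1) =
        (N.choose m : ℝ) * (N - m) * (((N + (m + 1)).choose (m + 1) : ℕ) : ℝ) * (m + 1) := by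
      calc _ = ((N.choose (m + 1) : ℝ) * (m + 1)) * (((N + m).choose m : ℝ) * (N + m + 1)) := by ring
        _ = ((N.choose m : ℝ) * (N - m)) * ((((N + (m + 1)).choose (m + 1) : ℕ) : ℝ) * (m + 1)) := by
            rw [h1, h3]
        _ = _ := by ring
    exact mul_right_cancel₀ hm.ne' e

theorem tb_up (N m : ℕ) : tb (N + 1) m * ((N + 1) ^ 2 - m ^ 2) = tb N m * (N + 1) ^ 2 := by
  induction m with
  | zero => simp [tb_zero]
  | succ m ih =>
    have h1 := tb_succ N m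
    have h2 := tb_succ (N + 1) m
    push_cast at h1 h2 ih ⊢
    have hn : (0 : ℝ) < N + m + 1 := by positivity
    have hn2 : (0 : ℝ) < N + 1 + m + 1 := by positivity
    have e : tb (N + 1) (m + 1) * (((N : ℝ) + 1) ^ 2 - (m + 1) ^ 2) * (N + m + 1) =
        tb N (m + 1) * (N + 1) ^ 2 * (N + m + 1) := by
      calc _ = (tb (N + 1) (m + 1) * (N + 1 + m + 1)) * (N - m) * (N + m + 1) := by ring
        _ = tb (N + 1) m * ((N + 1) ^ 2 - m ^ 2) * (N - m) := by rw [h2]; ring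
        _ = (tb N m * (N - m)) * (N + 1) ^ 2 := by rw [ih]; ring
        _ = _ := by rw [← h1]; ring
    exact mul_right_cancel₀ hn.ne' e

theorem tb_lim (m : ℕ) : Tendsto (fun N => tb N m) atTop (𝓝 1) := by
  induction m with
  | zero => simp [tb_zero]
  | succ m ih =>
    have h1 : Tendsto (fun N : ℕ => ((N : ℝ) - m) / (N + m + 1)) atTop (𝓝 1) := by
      have h2 : Tendsto (fun N : ℕ => 1 - (2 * (m : ℝ) + 1) / ((N : ℝ) + (m + 1))) atTop (𝓝 (1 - 0)) := by
        refine tendsto_const_nhds.sub (Tendsto.div_atTop tendsto_const_nhds ?_)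
        exact tendsto_atTop_add_const_right _ _ tendsto_natCast_atTop_atTop
      rw [sub_zero] at h2
      refine h2.congr fun N => ?_
      have : (0 : ℝ) < N + (m + 1) := by positivity
      field_simp
      ring
    have h3 := ih.mul h1
    rw [one_mul] at h3
    refine h3.congr fun N => ?_
    have hn : (0 : ℝ) < N + m + 1 := by positivity
    rw [← mul_div_assoc, ← tb_succ, mul_div_assoc, div_self hn.ne', mul_one]

/-- the functional `Φ_N` -/
noncomputable def Phi (N : ℕ) (f : ℕ → ℝ) : ℝ := ∑ m ∈ Ico 1 (N + 1), (-1) ^ m * tb N m * f m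

/-- the operator `T` -/
noncomputable def T (D : ℕ → ℝ) (m : ℕ) : ℝ := D m + 2 * ∑ n ∈ Ico 1 m, D n

theorem tail (N : ℕ) (hN : 0 < N) (n K : ℕ) (h : n ≤ K) :
    ∑ m ∈ Ico (n + 1) (K + 1), (-1 : ℝ) ^ m * tb N m =
      -((N - n) * ((-1) ^ n * tb N n) / (2 * N)) + (N - K) * ((-1) ^ K * tb N K) / (2 * N) := by
  have hN' : (0 : ℝ) < N := by exact_mod_cast hN
  induction K, h using Nat.le_induction with
  | base => simp
  | succ K hK ih =>
    rw [sum_Ico_succ_top (by omega), ih]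
    have h1 := tb_succ N K
    push_cast
    field_simp
    have e : (-1 : ℝ) ^ (K + 1) = -(-1) ^ K := by rw [pow_succ]; ring
    rw [e]
    linear_combination (-(-1 : ℝ) ^ K) * h1

theorem tail' (N : ℕ) (hN : 0 < N) (n : ℕ) (h : n ≤ N) :
    ∑ m ∈ Ico (n + 1) (N + 1), (-1 : ℝ) ^ m * tb N m =
      -((N - n) * ((-1) ^ n * tb N n) / (2 * N)) := by
  rw [tail N hN n N h, sub_self]
  ring

theorem Phi_one (N : ℕ) (hN : 0 < N) : Phi N (fun _ => 1) = -1 / 2 := by
  have h := tail' N hN 0 (Nat.zero_le N)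
  have hN' : (0 : ℝ) < N := by exact_mod_cast hN
  rw [zero_add] at h
  unfold Phi
  simp only [mul_one]
  rw [h, tb_zero]
  push_cast
  field_simp
  ring

/-- `N Φ_N[T D] = Φ_N[m D]` -/
theorem Phi_T (N : ℕ) (hN : 0 < N) (D : ℕ → ℝ) : N * Phi N (T D) = Phi N (fun m => m * D m) := by
  have hN' : (0 : ℝ) < N := by exact_mod_cast hN
  have h1 : Phi N (T D) = ∑ m ∈ Ico 1 (N + 1), (-1) ^ m * tb N m * D m +
      2 * ∑ n ∈ Ico 1 (N + 1), D n * ∑ m ∈ Ico (n + 1) (N + 1), (-1 : ℝ) ^ m * tb N m := by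
    unfold Phi T
    simp only [mul_add, sum_add_distrib]
    congr 1
    simp only [mul_sum]
    rw [sum_sigma', sum_sigma']
    refine sum_nbij' (fun p => ⟨p.2, p.1⟩) (fun p => ⟨p.2, p.1⟩) ?_ ?_ ?_ ?_ ?_
    · rintro ⟨m, n⟩ hp
      simp only [mem_sigma, mem_Ico] at hp ⊢
      omega
    · rintro ⟨m, n⟩ hp
      simp only [mem_sigma, mem_Ico] at hp ⊢
      omega
    · rintro ⟨m, n⟩ _
      rfl
    · rintro ⟨m, n⟩ _
      rfl
    · rintro ⟨m, n⟩ _
      simp only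
      ring
  have h2 : ∑ n ∈ Ico 1 (N + 1), D n * ∑ m ∈ Ico (n + 1) (N + 1), (-1 : ℝ) ^ m * tb N m =
      ∑ n ∈ Ico 1 (N + 1), D n * (-((N - n) * ((-1) ^ n * tb N n) / (2 * N))) := by
    refine sum_congr rfl fun n hn => ?_
    rw [mem_Ico] at hn
    rw [tail' N hN n (by omega)]
  rw [h1, h2, Phi, mul_add, mul_sum, ← mul_assoc, mul_sum, ← sum_add_distrib]
  refine sum_congr rfl fun n _ => ?_
  field_simp
  ring

theorem Phi_smul (N : ℕ) (c : ℝ) (f : ℕ → ℝ) : Phi N (fun m => c * f m) = c * Phi N f := by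
  unfold Phi
  rw [mul_sum]
  exact sum_congr rfl fun m _ => by ring

theorem Phi_congr (N : ℕ) {f g : ℕ → ℝ} (h : ∀ m, 1 ≤ m → f m = g m) : Phi N f = Phi N g := by
  unfold Phi
  refine sum_congr rfl fun m hm => ?_
  rw [mem_Ico] at hm
  rw [h m hm.1]

theorem Phi_id (N : ℕ) (hN : 0 < N) : Phi N (fun m => m) = -(N : ℝ) / (2 * (2 * N - 1)) := by
  have h := Phi_T N hN (fun _ => 1)
  have hN' : (1 : ℝ) ≤ N := by exact_mod_cast hN
  have h1 : Phi N (T fun _ => 1) = 2 * Phi N (fun m => (m : ℝ)) - Phi N (fun _ => 1) := by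
    have : Phi N (T fun _ => 1) = Phi N (fun m => 2 * (m : ℝ) - 1) := by
      refine Phi_congr N fun m hm => ?_
      simp only [T, sum_const, Nat.card_Ico, nsmul_eq_mul, mul_one]
      push_cast [Nat.cast_sub hm]
      ring
    rw [this]
    unfold Phi
    rw [mul_sum, ← sum_sub_distrib]
    exact sum_congr rfl fun m _ => by ring
  rw [h1, Phi_one N hN] at h
  simp only [mul_one] at h
  have h3 : (2 * (2 * N - 1) : ℝ) ≠ 0 := by
    have : (0 : ℝ) < 2 * (2 * N - 1) := by linarith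
    exact this.ne'
  rw [eq_div_iff h3]
  linarith

theorem Phi_diff (N : ℕ) (f : ℕ → ℝ) :
    Phi (N + 1) f - Phi N f = Phi (N + 1) (fun m => (m : ℝ) ^ 2 * f m) / ((N : ℝ) + 1) ^ 2 := by
  have h1 : Phi N f = ∑ m ∈ Ico 1 (N + 1 + 1), (-1) ^ m * tb N m * f m := by
    rw [sum_Ico_succ_top (by omega), tb_gt (by omega : N < N + 1)]
    simp [Phi]
  rw [h1]
  unfold Phi
  rw [← sum_sub_distrib, sum_div]
  refine sum_congr rfl fun m _ => ?_
  have h2 := tb_up N m
  have hn : ((N : ℝ) + 1) ^ 2 ≠ 0 := by positivity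
  rw [eq_div_iff hn]
  linear_combination (-1 : ℝ) ^ m * f m * h2

/-- `λ_N = Φ_N[1/m]` -/
noncomputable def lam (N : ℕ) : ℝ := -∑ k ∈ range N, 1 / (2 * ((k : ℝ) + 1) * (2 * k + 1))

theorem Phi_inv (N : ℕ) : Phi N (fun m => 1 / (m : ℝ)) = lam N := by
  induction N with
  | zero => simp [Phi, lam]
  | succ N ih =>
    have h := Phi_diff N (fun m => 1 / (m : ℝ))
    have h1 : Phi (N + 1) (fun m => (m : ℝ) ^ 2 * (1 / (m : ℝ))) = Phi (N + 1) (fun m => (m : ℝ)) := by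
      refine Phi_congr _ fun m hm => ?_
      have : (m : ℝ) ≠ 0 := by positivity
      field_simp
    rw [h1, Phi_id (N + 1) (by omega), ih] at h
    have h2 : lam (N + 1) = lam N - 1 / (2 * ((N : ℝ) + 1) * (2 * N + 1)) := by
      unfold lam
      rw [sum_range_succ]
      ring
    rw [h2]
    push_cast at h
    have h3 : -((N : ℝ) + 1) / (2 * (2 * (N + 1) - 1)) / ((N : ℝ) + 1) ^ 2 =
        -(1 / (2 * ((N : ℝ) + 1) * (2 * N + 1))) := by
      have e1 : (2 * ((N : ℝ) + 1) - 1) = 2 * N + 1 := by ring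
      rw [e1]
      field_simp
    rw [h3] at h
    linarith

theorem Phi_partial (K : ℕ) (f : ℕ → ℝ) :
    Phi K f = ∑ N ∈ range K, Phi (N + 1) (fun m => (m : ℝ) ^ 2 * f m) / ((N : ℝ) + 1) ^ 2 := by
  induction K with
  | zero => simp [Phi]
  | succ K ih =>
    rw [sum_range_succ, ← ih, ← Phi_diff]
    ring

/-- the iterated sequence -/
noncomputable def B : ℕ → ℕ → ℝ
  | 0 => T fun m => 1 / (m : ℝ) ^ 2 * 2
  | r + 1 => T fun m => 1 / (m : ℝ) * B r m

theorem Phi_B (N : ℕ) (hN : 0 < N) (r : ℕ) : Phi N (B r) = 2 * lam N / (N : ℝ) ^ (r + 1) := by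
  have hN' : (0 : ℝ) < N := by exact_mod_cast hN
  induction r with
  | zero =>
    have h := Phi_T N hN (fun m => 1 / (m : ℝ) ^ 2 * 2)
    have h1 : Phi N (fun m => (m : ℝ) * (1 / (m : ℝ) ^ 2 * 2)) = 2 * lam N := by
      rw [← Phi_inv, ← Phi_smul]
      refine Phi_congr _ fun m hm => ?_
      have : (m : ℝ) ≠ 0 := by positivity
      field_simp
    rw [h1] at h
    rw [B, eq_div_iff (by positivity), ← h]
    ring
  | succ r ih =>
    have h := Phi_T N hN (fun m => 1 / (m : ℝ) * B r m)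
    have h1 : Phi N (fun m => (m : ℝ) * (1 / (m : ℝ) * B r m)) = Phi N (B r) := by
      refine Phi_congr _ fun m hm => ?_
      have : (m : ℝ) ≠ 0 := by positivity
      field_simp
    rw [h1, ih] at h
    rw [B, pow_succ]
    rw [eq_div_iff (by positivity)]
    have h2 : (N : ℝ) * Phi N (T fun m => 1 / (m : ℝ) * B r m) * (N : ℝ) ^ (r + 1) = 2 * lam N := by
      rw [h]
      field_simp
    linarith

theorem sqrt_sum' (m : ℕ) : ∑ n ∈ Ico 1 (m + 1), 1 / Real.sqrt n ≤ 2 * Real.sqrt m := by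
  induction m with
  | zero => simp
  | succ m ih =>
    rw [sum_Ico_succ_top (by omega)]
    push_cast
    have h1 : Real.sqrt m ≤ Real.sqrt (m + 1) := Real.sqrt_le_sqrt (by linarith)
    have h3 : Real.sqrt (m + 1) ^ 2 = m + 1 := Real.sq_sqrt (by positivity)
    have h4 : Real.sqrt m ^ 2 = m := Real.sq_sqrt (by positivity)
    have h6 : (0 : ℝ) < Real.sqrt (m + 1) := Real.sqrt_pos.2 (by positivity)
    have h7 : 1 / Real.sqrt (m + 1) ≤ 2 * (Real.sqrt (m + 1) - Real.sqrt m) := by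
      rw [div_le_iff₀ h6]
      nlinarith [sq_nonneg (Real.sqrt (m + 1) - Real.sqrt m)]
    linarith

theorem sqrt_sum (m : ℕ) : ∑ n ∈ Ico 1 m, 1 / Real.sqrt n ≤ 2 * Real.sqrt m := by
  cases m with
  | zero => simp
  | succ m =>
    refine (sqrt_sum' m).trans ?_
    have : Real.sqrt m ≤ Real.sqrt (m + 1 : ℕ) := Real.sqrt_le_sqrt (by push_cast; linarith)
    linarith

/-- a bound for nested sums -/
theorem nested_bound (g : ℕ → ℝ) (C : ℝ) (hC : 0 ≤ C) (hg : ∀ n, 1 ≤ n → |g n| ≤ C * (1 / Real.sqrt n)) (m : ℕ) :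
    |∑ n ∈ Ico 1 m, g n| ≤ 2 * C * Real.sqrt m := by
  calc |∑ n ∈ Ico 1 m, g n| ≤ ∑ n ∈ Ico 1 m, |g n| := abs_sum_le_sum_abs _ _
    _ ≤ ∑ n ∈ Ico 1 m, C * (1 / Real.sqrt n) := sum_le_sum fun n hn => hg n (mem_Ico.1 hn).1
    _ = C * ∑ n ∈ Ico 1 m, 1 / Real.sqrt n := by rw [mul_sum]
    _ ≤ C * (2 * Real.sqrt m) := mul_le_mul_of_nonneg_left (sqrt_sum m) hC
    _ = _ := by ring

theorem T_bound (D : ℕ → ℝ) (C : ℝ) (hC : 0 ≤ C) (hD : ∀ n, 1 ≤ n → |D n| ≤ C * (1 / Real.sqrt n))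
    (m : ℕ) (hm : 1 ≤ m) : |T D m| ≤ 5 * C * Real.sqrt m := by
  have h1 := nested_bound D C hC hD m
  have h2 := hD m hm
  have hs : 1 ≤ Real.sqrt m := by
    rw [Real.one_le_sqrt]
    exact_mod_cast hm
  have h3 : C * (1 / Real.sqrt m) ≤ C * Real.sqrt m := by
    apply mul_le_mul_of_nonneg_left _ hC
    rw [div_le_iff₀ (by linarith)]
    nlinarith
  unfold T
  calc |D m + 2 * ∑ n ∈ Ico 1 m, D n| ≤ |D m| + |2 * ∑ n ∈ Ico 1 m, D n| := abs_add_le _ _
    _ = |D m| + 2 * |∑ n ∈ Ico 1 m, D n| := by rw [abs_mul, abs_two]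
    _ ≤ C * Real.sqrt m + 2 * (2 * C * Real.sqrt m) := by linarith
    _ = _ := by ring

theorem inv_mul_bound {g : ℝ} {C : ℝ} {n : ℕ} (hn : 1 ≤ n) (hg : |g| ≤ C * Real.sqrt n) :
    |1 / (n : ℝ) * g| ≤ C * (1 / Real.sqrt n) := by
  have hn' : (0 : ℝ) < n := by exact_mod_cast hn
  have hs : (0 : ℝ) < Real.sqrt n := Real.sqrt_pos.2 hn'
  have hsq : Real.sqrt n * Real.sqrt n = n := Real.mul_self_sqrt hn'.le
  rw [abs_mul, abs_of_pos (by positivity)]
  calc 1 / (n : ℝ) * |g| ≤ 1 / (n : ℝ) * (C * Real.sqrt n) :=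
        mul_le_mul_of_nonneg_left hg (by positivity)
    _ = C * (Real.sqrt n / n) := by ring
    _ = C * (1 / Real.sqrt n) := by rw [Real.sqrt_div_self']

theorem B_bound (r : ℕ) : ∃ C : ℝ, 0 ≤ C ∧ ∀ m, 1 ≤ m → |B r m| ≤ C * Real.sqrt m := by
  induction r with
  | zero =>
    refine ⟨5 * 2, by norm_num, fun m hm => T_bound _ 2 (by norm_num) (fun n hn => ?_) m hm⟩
    have hn' : (1 : ℝ) ≤ n := by exact_mod_cast hn
    have hs : (0 : ℝ) < Real.sqrt n := Real.sqrt_pos.2 (by linarith)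
    rw [abs_of_nonneg (by positivity)]
    have h1 : 1 / (n : ℝ) ^ 2 ≤ 1 / Real.sqrt n := by
      apply one_div_le_one_div_of_le hs
      rw [Real.sqrt_le_left (by positivity)]
      nlinarith [mul_le_mul hn' hn' (by norm_num) (by linarith), pow_le_pow_right₀ hn' (show 1 ≤ 4 by norm_num)]
    linarith
  | succ r ih =>
    obtain ⟨C, hC, h⟩ := ih
    exact ⟨5 * C, by positivity, fun m hm => T_bound _ C hC (fun n hn => inv_mul_bound hn (h n hn)) m hm⟩

theorem sqrt_summable (C : ℝ) : Summable fun m : ℕ => C * Real.sqrt ((m : ℝ) + 1) / ((m : ℝ) + 1) ^ 2 := by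
  have h : Summable fun m : ℕ => 1 / ((m : ℝ)) ^ (3 / 2 : ℝ) :=
    Real.summable_one_div_nat_rpow.2 (by norm_num)
  have h1 := ((summable_nat_add_iff 1).2 h).mul_left C
  refine h1.congr fun m => ?_
  have hm : (0 : ℝ) < (m : ℝ) + 1 := by positivity
  push_cast
  rw [Real.sqrt_eq_rpow, mul_div_assoc]
  congr 1
  rw [div_eq_div_iff (by positivity) (by positivity), one_mul, ← Real.rpow_natCast, ← Real.rpow_add hm]
  norm_num

/-- the limit of the sums `Phi` -/
theorem Phi_lim (f : ℕ → ℝ) (C : ℝ) (hf : ∀ m, 1 ≤ m → |f m| ≤ C * Real.sqrt m) :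
    (Summable fun m : ℕ => (-1 : ℝ) ^ (m + 1) * (f (m + 1) / ((m : ℝ) + 1) ^ 2)) ∧
    Tendsto (fun K : ℕ => ∑ N ∈ range K, Phi (N + 1) f / ((N : ℝ) + 1) ^ 2) atTop
      (𝓝 (∑' m : ℕ, (-1 : ℝ) ^ (m + 1) * (f (m + 1) / ((m : ℝ) + 1) ^ 2))) := by
  have hb : ∀ m : ℕ, |f (m + 1) / ((m : ℝ) + 1) ^ 2| ≤ C * Real.sqrt ((m : ℝ) + 1) / ((m : ℝ) + 1) ^ 2 := by
    intro m
    rw [abs_div, abs_of_pos (by positivity : (0 : ℝ) < ((m : ℝ) + 1) ^ 2)]
    have := hf (m + 1) (by omega)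
    push_cast at this
    gcongr
  refine ⟨?_, ?_⟩
  · refine Summable.of_norm_bounded (sqrt_summable C) fun m => ?_
    rw [norm_mul, norm_pow, norm_neg, norm_one, one_pow, one_mul, Real.norm_eq_abs]
    exact hb m
  · have h1 : ∀ K : ℕ, ∑ N ∈ range K, Phi (N + 1) f / ((N : ℝ) + 1) ^ 2 =
        ∑' m : ℕ, tb K (m + 1) * ((-1 : ℝ) ^ (m + 1) * (f (m + 1) / ((m : ℝ) + 1) ^ 2)) := by
      intro K
      have h2 := Phi_partial K (fun m => f m / (m : ℝ) ^ 2)
      have h3 : ∀ N : ℕ, Phi (N + 1) (fun m => (m : ℝ) ^ 2 * (f m / (m : ℝ) ^ 2)) = Phi (N + 1) f := by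
        intro N
        refine Phi_congr _ fun m hm => ?_
        have : (m : ℝ) ≠ 0 := by positivity
        field_simp
      simp only [h3] at h2
      rw [← h2, Phi, sum_Ico_eq_sum_range]
      rw [tsum_eq_sum (s := range (K + 1 - 1))]
      · refine sum_congr rfl fun m _ => ?_
        rw [add_comm 1 m]
        push_cast
        ring
      · intro m hm
        rw [mem_range, not_lt] at hm
        rw [tb_gt (by omega : K < m + 1), zero_mul]
    simp only [h1]
    have h4 := tendsto_tsum_of_dominated_convergence (𝓕 := atTop)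
      (f := fun (K : ℕ) (m : ℕ) => tb K (m + 1) * ((-1 : ℝ) ^ (m + 1) * (f (m + 1) / ((m : ℝ) + 1) ^ 2)))
      (g := fun m : ℕ => 1 * ((-1 : ℝ) ^ (m + 1) * (f (m + 1) / ((m : ℝ) + 1) ^ 2)))
      (bound := fun m => C * Real.sqrt ((m : ℝ) + 1) / ((m : ℝ) + 1) ^ 2) (sqrt_summable C)
      (fun m => (tb_lim (m + 1)).mul_const _) (Eventually.of_forall fun K m => by
        rw [norm_mul, norm_mul, norm_pow, norm_neg, norm_one, one_pow, one_mul, Real.norm_eq_abs,
          Real.norm_eq_abs, abs_of_nonneg (tb_nonneg _ _)]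
        calc tb K (m + 1) * |f (m + 1) / ((m : ℝ) + 1) ^ 2| ≤ 1 * |f (m + 1) / ((m : ℝ) + 1) ^ 2| :=
              mul_le_mul_of_nonneg_right (tb_le_one _ _) (abs_nonneg _)
          _ ≤ _ := by rw [one_mul]; exact hb m)
    simp only [one_mul] at h4
    exact h4

/-- absolute convergence of `∑ λ_N / N^d` -/
theorem lam_bound (N : ℕ) : |lam N| ≤ 1 := by
  unfold lam
  rw [abs_neg, abs_of_nonneg (sum_nonneg fun k _ => by positivity)]
  have h : ∀ N : ℕ, ∑ k ∈ range N, 1 / (2 * ((k : ℝ) + 1) * (2 * k + 1)) ≤ 1 - 1 / ((N : ℝ) + 1) := by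
    intro N
    induction N with
    | zero => simp
    | succ N ih =>
      rw [sum_range_succ]
      push_cast
      have h1 : 1 / (2 * ((N : ℝ) + 1) * (2 * N + 1)) ≤ 1 / ((N : ℝ) + 1) - 1 / ((N : ℝ) + 1 + 1) := by
        rw [div_sub_div _ _ (by positivity) (by positivity), div_le_div_iff₀ (by positivity) (by positivity)]
        have : (0 : ℝ) ≤ N := Nat.cast_nonneg N
        nlinarith [mul_nonneg this this, mul_nonneg this (mul_nonneg this this)]
      linarith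
  have h1 := h N
  have h2 : (0 : ℝ) ≤ 1 / ((N : ℝ) + 1) := by positivity
  linarith

theorem main_series (r : ℕ) :
    (Summable fun m : ℕ => (-1 : ℝ) ^ (m + 1) * (B r (m + 1) / ((m : ℝ) + 1) ^ 2)) ∧
    (Summable fun N : ℕ => lam (N + 1) / ((N : ℝ) + 1) ^ (r + 3)) ∧
    ∑' m : ℕ, (-1 : ℝ) ^ (m + 1) * (B r (m + 1) / ((m : ℝ) + 1) ^ 2) =
      2 * ∑' N : ℕ, lam (N + 1) / ((N : ℝ) + 1) ^ (r + 3) := by
  obtain ⟨C, hC, hB⟩ := B_bound r
  obtain ⟨h1, h2⟩ := Phi_lim (B r) C hB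
  have hs : Summable fun N : ℕ => lam (N + 1) / ((N : ℝ) + 1) ^ (r + 3) := by
    have h3 : Summable fun N : ℕ => 1 / (((N + 1 : ℕ) : ℝ)) ^ (r + 3) :=
      (summable_nat_add_iff 1).2 (Real.summable_one_div_nat_pow.2 (by omega))
    refine Summable.of_norm_bounded h3 fun N => ?_
    rw [norm_div, Real.norm_eq_abs, norm_pow, Real.norm_eq_abs, abs_of_pos (by positivity : (0 : ℝ) < (N : ℝ) + 1)]
    push_cast
    gcongr
    exact lam_bound _
  refine ⟨h1, hs, ?_⟩
  refine tendsto_nhds_unique h2 ?_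
  have h4 := (hs.mul_left 2).hasSum.tendsto_sum_nat
  rw [tsum_mul_left] at h4
  refine h4.congr fun K => sum_congr rfl fun N _ => ?_
  rw [Phi_B (N + 1) (by omega)]
  push_cast
  have : (0 : ℝ) < (N : ℝ) + 1 := by positivity
  field_simp
  ring

end Pool.Agent.X109.SH
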