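import Pool.Agent.X109.SH.A

set_option autoImplicit false

namespace Pool.Agent.X109.SH

open Finset Filter Topology

theorem sqrt_le {x : ℝ} (hx : 1 ≤ x) : Real.sqrt x ≤ x := by
  rw [Real.sqrt_le_left (by linarith)]
  nlinarith

/-- harmonic numbers -/
noncomputable def H (n : ℕ) : ℝ := ∑ k ∈ range n, 1 / ((k : ℝ) + 1)

theorem H_succ (n : ℕ) : H (n + 1) = H n + 1 / ((n : ℝ) + 1) := by
  rw [H, sum_range_succ, H]

theorem lam_eq (N : ℕ) : lam N = H N - H (2 * N) := by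
  induction N with
  | zero => simp [lam, H]
  | succ N ih =>
    have h1 : lam (N + 1) = lam N - 1 / (2 * ((N : ℝ) + 1) * (2 * N + 1)) := by
      unfold lam
      rw [sum_range_succ]
      ring
    have e : 2 * (N + 1) = 2 * N + 1 + 1 := by ring
    rw [h1, ih, H_succ, e, H_succ, H_succ]
    push_cast
    field_simp
    ring

theorem tele (p : ℕ) (hp : 1 ≤ p) : HasSum (fun t : ℕ => 1 / (((t : ℝ) + 1) * (t + 1 + p))) (H p / p) := by
  have hp' : (0 : ℝ) < p := by exact_mod_cast hp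
  rw [hasSum_iff_tendsto_nat_of_nonneg (fun t => by positivity)]
  have h1 : ∀ K : ℕ, ∑ t ∈ range K, 1 / (((t : ℝ) + 1) * (t + 1 + p)) =
      (H p - ∑ j ∈ range p, 1 / ((K : ℝ) + j + 1)) / p := by
    intro K
    induction K with
    | zero => simp [H]
    | succ K ih =>
      rw [sum_range_succ, ih]
      have h2 : ∑ j ∈ range p, 1 / (((K + 1 : ℕ) : ℝ) + j + 1) =
          ∑ j ∈ range p, 1 / ((K : ℝ) + j + 1) + 1 / ((K : ℝ) + p + 1) - 1 / ((K : ℝ) + 1) := by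
        have h3 := sum_range_succ (fun j : ℕ => 1 / ((K : ℝ) + j + 1)) p
        have h4 := sum_range_succ' (fun j : ℕ => 1 / ((K : ℝ) + j + 1)) p
        rw [h3] at h4
        have h5 : ∑ j ∈ range p, 1 / (((K + 1 : ℕ) : ℝ) + j + 1) =
            ∑ j ∈ range p, 1 / ((K : ℝ) + ((j + 1 : ℕ) : ℝ) + 1) := by
          refine sum_congr rfl fun j _ => ?_
          push_cast
          ring
        rw [h5]
        simp only [Nat.cast_zero, add_zero] at h4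
        linarith
      rw [h2]
      field_simp
      ring
  simp only [h1]
  have h2 : Tendsto (fun K : ℕ => ∑ j ∈ range p, 1 / ((K : ℝ) + j + 1)) atTop (𝓝 (∑ j ∈ range p, (0 : ℝ))) := by
    refine tendsto_finsetSum _ fun j _ => ?_
    refine Tendsto.div_atTop tendsto_const_nhds ?_
    exact tendsto_atTop_add_const_right _ _ (tendsto_atTop_add_const_right _ _ tendsto_natCast_atTop_atTop)
  simp only [sum_const_zero] at h2
  have h3 := (tendsto_const_nhds (x := H p)).sub h2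
  rw [sub_zero] at h3
  exact h3.div_const _

/-- sums over `k < l` of `1 / (l - k)` and `1 / (l + k)` -/
theorem sum_sub (l : ℕ) : ∑ k ∈ Ico 1 (l + 1), 1 / (((l + 1 : ℕ) : ℝ) - k) = H l := by
  rw [sum_Ico_eq_sum_range, H, Nat.add_sub_cancel, ← sum_range_reflect]
  refine sum_congr rfl fun j hj => ?_
  rw [mem_range] at hj
  have : ((1 + (l - 1 - j) : ℕ) : ℝ) = (l : ℝ) - j := by
    have e : 1 + (l - 1 - j) = l - j := by omega
    rw [e, Nat.cast_sub hj.le]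
  rw [this]
  push_cast
  congr 1
  ring

theorem sum_add (l : ℕ) : ∑ k ∈ Ico 1 (l + 1), 1 / (((l + 1 : ℕ) : ℝ) + k) =
    H (2 * (l + 1)) - H (l + 1) - 1 / (2 * ((l : ℝ) + 1)) := by
  have h : ∀ m : ℕ, ∑ k ∈ Ico 1 (m + 1), 1 / (((l + 1 : ℕ) : ℝ) + k) = H (l + 1 + m) - H (l + 1) := by
    intro m
    induction m with
    | zero => simp
    | succ m ih =>
      rw [sum_Ico_succ_top (by omega), ih, show l + 1 + (m + 1) = (l + 1 + m) + 1 by ring,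
        H_succ (l + 1 + m)]
      push_cast
      ring
  rw [h l, show 2 * (l + 1) = (l + 1 + l) + 1 by ring, H_succ (l + 1 + l)]
  push_cast
  have e : 1 / ((l : ℝ) + 1 + l + 1) = 1 / (2 * ((l : ℝ) + 1)) := by
    congr 1
    ring
  rw [e]
  ring

/-- the double zeta value `∑_{k < l} k^(-m) l^(-n)` -/
noncomputable def dz (m n : ℕ) : ℝ :=
  ∑' l : ℕ, 1 / ((l : ℝ) + 1) ^ n * ∑ k ∈ Ico 1 (l + 1), 1 / (k : ℝ) ^ m

theorem dz_summable (m n : ℕ) (hm : 1 ≤ m) (hn : 2 ≤ n) :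
    Summable fun l : ℕ => 1 / ((l : ℝ) + 1) ^ n * ∑ k ∈ Ico 1 (l + 1), 1 / (k : ℝ) ^ m := by
  refine Summable.of_norm_bounded (sqrt_summable 2) fun l => ?_
  rw [norm_mul, Real.norm_eq_abs, Real.norm_eq_abs]
  have h1 : |∑ k ∈ Ico 1 (l + 1), 1 / (k : ℝ) ^ m| ≤ 2 * 1 * Real.sqrt ((l + 1 : ℕ) : ℝ) := by
    refine nested_bound (fun k => 1 / (k : ℝ) ^ m) 1 zero_le_one (fun k hk => ?_) (l + 1)
    have hk' : (1 : ℝ) ≤ k := by exact_mod_cast hk
    rw [abs_of_nonneg (by positivity), one_mul]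
    apply one_div_le_one_div_of_le (Real.sqrt_pos.2 (by linarith))
    calc Real.sqrt k ≤ k := sqrt_le hk'
      _ = (k : ℝ) ^ 1 := (pow_one _).symm
      _ ≤ (k : ℝ) ^ m := pow_le_pow_right₀ hk' hm
  have h2 : |1 / ((l : ℝ) + 1) ^ n| ≤ 1 / ((l : ℝ) + 1) ^ 2 := by
    rw [abs_of_nonneg (by positivity)]
    apply one_div_le_one_div_of_le (by positivity)
    exact pow_le_pow_right₀ (by linarith [(Nat.cast_nonneg l : (0 : ℝ) ≤ l)]) hn
  push_cast at h1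
  calc _ ≤ 1 / ((l : ℝ) + 1) ^ 2 * (2 * 1 * Real.sqrt ((l : ℝ) + 1)) :=
        mul_le_mul h2 h1 (abs_nonneg _) (by positivity)
    _ = _ := by ring

/-- `a(k, l) = k^(1-d) / (l² - k²)` -/
noncomputable def aa (d k l : ℕ) : ℝ := 1 / (k : ℝ) ^ (d - 1) / ((l : ℝ) ^ 2 - (k : ℝ) ^ 2)

/-- the double series over `k < l`; `k = i + 1`, `l = j + 1` -/
noncomputable def FF (d : ℕ) (p : ℕ × ℕ) : ℝ := if p.1 < p.2 then aa d (p.1 + 1) (p.2 + 1) else 0

theorem FF_nonneg (d : ℕ) (p : ℕ × ℕ) : 0 ≤ FF d p := by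
  unfold FF aa
  split_ifs with h
  · have h1 : (p.1 : ℝ) < p.2 := by exact_mod_cast h
    have h2 : (0 : ℝ) ≤ p.1 := Nat.cast_nonneg _
    push_cast
    have h3 : (0 : ℝ) ≤ ((p.2 : ℝ) + 1) ^ 2 - (p.1 + 1) ^ 2 := by nlinarith
    positivity
  · exact le_rfl

theorem FF_inner (d i : ℕ) (hd : 1 ≤ d) :
    HasSum (fun j => FF d (i, j)) (H (2 * (i + 1)) / 2 / ((i : ℝ) + 1) ^ d) := by
  have h1 := (tele (2 * (i + 1)) (by omega)).mul_left (1 / ((i + 1 : ℕ) : ℝ) ^ (d - 1))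
  have h2 : HasSum (fun t : ℕ => FF d (i, t + (i + 1)))
      (1 / ((i + 1 : ℕ) : ℝ) ^ (d - 1) * (H (2 * (i + 1)) / ((2 * (i + 1) : ℕ) : ℝ))) := by
    refine h1.congr_fun fun t => ?_
    unfold FF aa
    simp only
    rw [if_pos (by omega)]
    push_cast
    have h3 : ((t : ℝ) + (i + 1) + 1) ^ 2 - ((i : ℝ) + 1) ^ 2 = ((t : ℝ) + 1) * (t + 1 + 2 * (i + 1)) := by ring
    rw [h3]
    ring
  have h3 := (hasSum_nat_add_iff (f := fun j => FF d (i, j)) (i + 1)).1 h2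
  have h4 : ∑ j ∈ range (i + 1), FF d (i, j) = 0 := by
    refine sum_eq_zero fun j hj => ?_
    rw [mem_range] at hj
    unfold FF
    rw [if_neg (by simp only; omega)]
  rw [h4, add_zero] at h3
  have hi : (0 : ℝ) < (i : ℝ) + 1 := by positivity
  obtain ⟨e, rfl⟩ : ∃ e, d = e + 1 := ⟨d - 1, by omega⟩
  have h5 : H (2 * (i + 1)) / 2 / ((i : ℝ) + 1) ^ (e + 1) =
      1 / ((i + 1 : ℕ) : ℝ) ^ (e + 1 - 1) * (H (2 * (i + 1)) / ((2 * (i + 1) : ℕ) : ℝ)) := by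
    push_cast
    rw [pow_succ]
    field_simp
  rw [h5]
  exact h3

theorem H_bound (n : ℕ) : |H n| ≤ 2 * Real.sqrt ((n + 1 : ℕ) : ℝ) := by
  have h := nested_bound (fun k => 1 / (k : ℝ)) 1 zero_le_one (fun k hk => by
    have hk' : (1 : ℝ) ≤ k := by exact_mod_cast hk
    rw [abs_of_nonneg (by positivity), one_mul]
    exact one_div_le_one_div_of_le (Real.sqrt_pos.2 (by linarith)) (sqrt_le hk')) (n + 1)
  have e : ∑ k ∈ Ico 1 (n + 1), 1 / (k : ℝ) = H n := by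
    rw [sum_Ico_eq_sum_range, H, Nat.add_sub_cancel]
    refine sum_congr rfl fun k _ => ?_
    push_cast
    rw [add_comm]
  rw [e] at h
  linarith

/-- absolute convergence of a series with terms of size `C √(n+1) / (n+1)^d` -/
theorem sum_of_sqrt (d : ℕ) (hd : 2 ≤ d) (C : ℝ) (f : ℕ → ℝ)
    (hf : ∀ n : ℕ, |f n| ≤ C * Real.sqrt ((n : ℝ) + 1)) :
    Summable fun n : ℕ => f n / ((n : ℝ) + 1) ^ d := by
  refine Summable.of_norm_bounded (sqrt_summable C) fun n => ?_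
  rw [norm_div, norm_pow, Real.norm_eq_abs, Real.norm_eq_abs, abs_of_pos (by positivity : (0 : ℝ) < (n : ℝ) + 1)]
  have h0 : 0 ≤ C * Real.sqrt ((n : ℝ) + 1) := (abs_nonneg _).trans (hf n)
  apply div_le_div₀ h0 (hf n) (by positivity)
  exact pow_le_pow_right₀ (by linarith [(Nat.cast_nonneg n : (0 : ℝ) ≤ n)]) hd

theorem H_bound1 (n : ℕ) : |H (n + 1)| ≤ 4 * Real.sqrt ((n : ℝ) + 1) := by
  refine (H_bound (n + 1)).trans ?_
  have h1 : Real.sqrt ((n + 1 + 1 : ℕ) : ℝ) ≤ Real.sqrt (4 * ((n : ℝ) + 1)) := by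
    apply Real.sqrt_le_sqrt
    push_cast
    linarith [(Nat.cast_nonneg n : (0 : ℝ) ≤ n)]
  rw [Real.sqrt_mul (by norm_num), show (4 : ℝ) = 2 ^ 2 by norm_num, Real.sqrt_sq (by norm_num)] at h1
  linarith

theorem H_bound2 (n : ℕ) : |H (2 * (n + 1))| ≤ 4 * Real.sqrt ((n : ℝ) + 1) := by
  refine (H_bound (2 * (n + 1))).trans ?_
  have h1 : Real.sqrt ((2 * (n + 1) + 1 : ℕ) : ℝ) ≤ Real.sqrt (4 * ((n : ℝ) + 1)) := by
    apply Real.sqrt_le_sqrt
    push_cast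
    linarith [(Nat.cast_nonneg n : (0 : ℝ) ≤ n)]
  rw [Real.sqrt_mul (by norm_num), show (4 : ℝ) = 2 ^ 2 by norm_num, Real.sqrt_sq (by norm_num)] at h1
  linarith

theorem FF_summable (d : ℕ) (hd : 2 ≤ d) : Summable (FF d) := by
  rw [summable_prod_of_nonneg (fun p => FF_nonneg d p)]
  refine ⟨fun i => (FF_inner d i (by omega)).summable, ?_⟩
  simp only [(FF_inner d _ (by omega)).tsum_eq]
  exact sum_of_sqrt d hd 2 _ (fun n => by
    rw [abs_div, abs_two]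
    have := H_bound2 n
    linarith)

/-- the sum over `k < l` of `a(k, l)`, in both orders -/
theorem aa_sum (d : ℕ) (hd : 2 ≤ d) :
    HasSum (fun l : ℕ => ∑ k ∈ Ico 1 (l + 1), aa d k (l + 1))
      (∑' k : ℕ, H (2 * (k + 1)) / 2 / ((k : ℝ) + 1) ^ d) := by
  have hs := FF_summable d hd
  have h1 : ∑' p, FF d p = ∑' k : ℕ, H (2 * (k + 1)) / 2 / ((k : ℝ) + 1) ^ d := by
    rw [hs.tsum_prod' (fun i => (FF_inner d i (by omega)).summable)]
    exact tsum_congr fun i => (FF_inner d i (by omega)).tsum_eq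
  rw [← h1]
  have h2 : ∀ l : ℕ, HasSum (fun i => FF d (i, l)) (∑ k ∈ Ico 1 (l + 1), aa d k (l + 1)) := by
    intro l
    have h3 : ∑ k ∈ Ico 1 (l + 1), aa d k (l + 1) = ∑ i ∈ range l, FF d (i, l) := by
      rw [sum_Ico_eq_sum_range, Nat.add_sub_cancel]
      refine sum_congr rfl fun i hi => ?_
      rw [mem_range] at hi
      unfold FF
      rw [if_pos hi, add_comm]
    rw [h3]
    refine hasSum_sum_of_ne_finset_zero fun i hi => ?_
    rw [mem_range] at hi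
    unfold FF
    rw [if_neg hi]
  have h4 : HasSum (fun p : ℕ × ℕ => FF d (p.2, p.1)) (∑' p, FF d p) := by
    have h5 := (Equiv.prodComm ℕ ℕ).hasSum_iff (f := FF d) (a := ∑' p, FF d p)
    exact h5.2 hs.hasSum
  exact HasSum.prod_fiberwise (f := fun p : ℕ × ℕ => FF d (p.2, p.1)) h4 h2

/-- the inner sum of the geometric series -/
theorem geom (d s k l : ℕ) (hk : 1 ≤ k) (hkl : k < l) (hs : 2 * s ≤ d) (hd : 1 ≤ d) :
    ∑ i ∈ range s, 1 / (l : ℝ) ^ (2 * (i + 1)) * (1 / (k : ℝ) ^ (d + 1 - 2 * (i + 1))) =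
      aa d k l - 1 / (k : ℝ) ^ (d - 1) * ((k : ℝ) / l) ^ (2 * s) / ((l : ℝ) ^ 2 - (k : ℝ) ^ 2) := by
  have hk' : (0 : ℝ) < k := by exact_mod_cast hk
  have hl' : (0 : ℝ) < l := by exact_mod_cast (by omega : 0 < l)
  have hkl' : (k : ℝ) < l := by exact_mod_cast hkl
  have hD : (l : ℝ) ^ 2 - (k : ℝ) ^ 2 ≠ 0 := by
    have : 0 < (l : ℝ) ^ 2 - (k : ℝ) ^ 2 := by nlinarith
    exact this.ne'
  unfold aa
  rw [← sub_div, eq_div_iff hD]
  induction s with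
  | zero => simp
  | succ s ih =>
    rw [sum_range_succ, add_mul, ih (by omega)]
    obtain ⟨e, he⟩ : ∃ e, d = 2 * s + 1 + e + 1 := ⟨d - (2 * s + 2), by omega⟩
    subst he
    have e1 : 2 * s + 1 + e + 1 + 1 - 2 * (s + 1) = e + 1 := by omega
    have e2 : 2 * s + 1 + e + 1 - 1 = 2 * s + 1 + e := by omega
    rw [e1, e2]
    rw [show 2 * (s + 1) = 2 * s + 2 by ring]
    have e3 : ((k : ℝ) / l) ^ (2 * s + 2) = ((k : ℝ) / l) ^ (2 * s) * ((k : ℝ) / l) ^ 2 := pow_add _ _ _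
    have e4 : ((k : ℝ) / l) ^ (2 * s) = (k : ℝ) ^ (2 * s) / (l : ℝ) ^ (2 * s) := div_pow _ _ _
    have e5 : (k : ℝ) ^ (2 * s + 1 + e) = (k : ℝ) ^ (2 * s) * (k : ℝ) ^ (e + 1) := by
      rw [← pow_add]
      congr 1
      ring
    rw [e3, e4, e5, pow_add (l : ℝ) (2 * s) 2, div_pow]
    have hks : (k : ℝ) ^ (2 * s) ≠ 0 := by positivity
    have hls : (l : ℝ) ^ (2 * s) ≠ 0 := by positivity
    have hke : (k : ℝ) ^ (e + 1) ≠ 0 := by positivity
    generalize (k : ℝ) ^ (2 * s) = A at *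
    generalize (l : ℝ) ^ (2 * s) = B at *
    generalize (k : ℝ) ^ (e + 1) = E at *
    field_simp
    ring

theorem bb_even (s l : ℕ) (hs : 1 ≤ s) :
    ∑ k ∈ Ico 1 (l + 1), 1 / (k : ℝ) ^ (2 * s - 1) * ((k : ℝ) / ((l + 1 : ℕ) : ℝ)) ^ (2 * s) /
      (((l + 1 : ℕ) : ℝ) ^ 2 - (k : ℝ) ^ 2) =
    (H (l + 1) - H (2 * (l + 1)) / 2 - 1 / (4 * ((l : ℝ) + 1))) / ((l : ℝ) + 1) ^ (2 * s) := by
  have h1 : ∀ k ∈ Ico 1 (l + 1), 1 / (k : ℝ) ^ (2 * s - 1) * ((k : ℝ) / ((l + 1 : ℕ) : ℝ)) ^ (2 * s) /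
      (((l + 1 : ℕ) : ℝ) ^ 2 - (k : ℝ) ^ 2) =
      (1 / (((l + 1 : ℕ) : ℝ) - k) - 1 / (((l + 1 : ℕ) : ℝ) + k)) / (2 * ((l : ℝ) + 1) ^ (2 * s)) := by
    intro k hk
    rw [mem_Ico] at hk
    have hk' : (0 : ℝ) < k := by exact_mod_cast (by omega : 0 < k)
    have hkl : (k : ℝ) < ((l + 1 : ℕ) : ℝ) := by exact_mod_cast hk.2
    obtain ⟨e, he⟩ : ∃ e, 2 * s = e + 1 := ⟨2 * s - 1, by omega⟩
    rw [he, Nat.add_sub_cancel, div_pow]
    have h3 : ((l + 1 : ℕ) : ℝ) - k ≠ 0 := by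
      have : 0 < ((l + 1 : ℕ) : ℝ) - k := by linarith
      exact this.ne'
    have h4 : ((l + 1 : ℕ) : ℝ) + k ≠ 0 := by positivity
    have h5 : ((l + 1 : ℕ) : ℝ) ^ 2 - (k : ℝ) ^ 2 = (((l + 1 : ℕ) : ℝ) - k) * (((l + 1 : ℕ) : ℝ) + k) := by ring
    rw [h5]
    have h6 : ((l : ℝ) + 1) = ((l + 1 : ℕ) : ℝ) := by push_cast; rfl
    rw [h6]
    have h7 : ((l + 1 : ℕ) : ℝ) ^ (e + 1) ≠ 0 := by positivity
    have h8 : (k : ℝ) ^ e ≠ 0 := by positivity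
    rw [pow_succ (k : ℝ) e]
    generalize ((l + 1 : ℕ) : ℝ) ^ (e + 1) = L at *
    generalize ((l + 1 : ℕ) : ℝ) = x at *
    generalize (k : ℝ) ^ e = K at *
    field_simp
    ring
  rw [sum_congr rfl h1, ← sum_div, sum_sub_distrib, sum_sub, sum_add]
  have h2 : H (l + 1) = H l + 1 / ((l : ℝ) + 1) := H_succ l
  have hl : H l = H (l + 1) - 1 / ((l : ℝ) + 1) := by linarith
  rw [hl]
  have h6 : ((l : ℝ) + 1) ≠ 0 := by positivity
  have h7 : ((l : ℝ) + 1) ^ (2 * s) ≠ 0 := by positivity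
  generalize ((l : ℝ) + 1) ^ (2 * s) = L at *
  field_simp
  ring

theorem bb_odd (s l : ℕ) :
    ∑ k ∈ Ico 1 (l + 1), 1 / (k : ℝ) ^ (2 * s + 1 - 1) * ((k : ℝ) / ((l + 1 : ℕ) : ℝ)) ^ (2 * s) /
      (((l + 1 : ℕ) : ℝ) ^ 2 - (k : ℝ) ^ 2) =
    (H (2 * (l + 1)) / 2 - 3 / (4 * ((l : ℝ) + 1))) / ((l : ℝ) + 1) ^ (2 * s + 1) := by
  have h1 : ∀ k ∈ Ico 1 (l + 1), 1 / (k : ℝ) ^ (2 * s + 1 - 1) * ((k : ℝ) / ((l + 1 : ℕ) : ℝ)) ^ (2 * s) /
      (((l + 1 : ℕ) : ℝ) ^ 2 - (k : ℝ) ^ 2) =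
      (1 / (((l + 1 : ℕ) : ℝ) - k) + 1 / (((l + 1 : ℕ) : ℝ) + k)) / (2 * ((l : ℝ) + 1) ^ (2 * s + 1)) := by
    intro k hk
    rw [mem_Ico] at hk
    have hk' : (0 : ℝ) < k := by exact_mod_cast (by omega : 0 < k)
    have hkl : (k : ℝ) < ((l + 1 : ℕ) : ℝ) := by exact_mod_cast hk.2
    rw [Nat.add_sub_cancel, div_pow]
    have h3 : ((l + 1 : ℕ) : ℝ) - k ≠ 0 := by
      have : 0 < ((l + 1 : ℕ) : ℝ) - k := by linarith
      exact this.ne'
    have h4 : ((l + 1 : ℕ) : ℝ) + k ≠ 0 := by positivity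
    have h5 : ((l + 1 : ℕ) : ℝ) ^ 2 - (k : ℝ) ^ 2 = (((l + 1 : ℕ) : ℝ) - k) * (((l + 1 : ℕ) : ℝ) + k) := by ring
    rw [h5]
    have h6 : ((l : ℝ) + 1) = ((l + 1 : ℕ) : ℝ) := by push_cast; rfl
    rw [h6]
    have h7 : ((l + 1 : ℕ) : ℝ) ^ (2 * s) ≠ 0 := by positivity
    have h8 : (k : ℝ) ^ (2 * s) ≠ 0 := by positivity
    have h9 : ((l + 1 : ℕ) : ℝ) ≠ 0 := by positivity
    rw [pow_succ ((l + 1 : ℕ) : ℝ) (2 * s)]
    generalize ((l + 1 : ℕ) : ℝ) ^ (2 * s) = L at *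
    generalize ((l + 1 : ℕ) : ℝ) = x at *
    generalize (k : ℝ) ^ (2 * s) = K at *
    field_simp
    ring
  rw [sum_congr rfl h1, ← sum_div, sum_add_distrib, sum_sub, sum_add]
  have h2 : H (l + 1) = H l + 1 / ((l : ℝ) + 1) := H_succ l
  have hl : H l = H (l + 1) - 1 / ((l : ℝ) + 1) := by linarith
  rw [hl]
  have h6 : ((l : ℝ) + 1) ≠ 0 := by positivity
  have h7 : ((l : ℝ) + 1) ^ (2 * s + 1) ≠ 0 := by positivity
  generalize ((l : ℝ) + 1) ^ (2 * s + 1) = L at *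
  field_simp
  ring

/-- the sum of the double zeta values as a single series -/
theorem dz_sum (d s : ℕ) (hd : 2 ≤ d) (hs : 2 * s ≤ d) :
    HasSum (fun l : ℕ => ∑ k ∈ Ico 1 (l + 1), (aa d k (l + 1) - 1 / (k : ℝ) ^ (d - 1) *
      ((k : ℝ) / ((l + 1 : ℕ) : ℝ)) ^ (2 * s) / (((l + 1 : ℕ) : ℝ) ^ 2 - (k : ℝ) ^ 2)))
      (∑ i ∈ range s, dz (d + 1 - 2 * (i + 1)) (2 * (i + 1))) := by
  have h1 : HasSum (fun l : ℕ => ∑ i ∈ range s, (1 / ((l : ℝ) + 1) ^ (2 * (i + 1)) *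
      ∑ k ∈ Ico 1 (l + 1), 1 / (k : ℝ) ^ (d + 1 - 2 * (i + 1))))
      (∑ i ∈ range s, dz (d + 1 - 2 * (i + 1)) (2 * (i + 1))) := by
    refine hasSum_sum fun i hi => ?_
    rw [mem_range] at hi
    exact (dz_summable _ _ (by omega) (by omega)).hasSum
  refine h1.congr_fun fun l => ?_
  simp only [mul_sum]
  rw [sum_comm]
  refine sum_congr rfl fun k hk => ?_
  rw [mem_Ico] at hk
  rw [← geom d s k (l + 1) hk.1 hk.2 hs (by omega)]
  push_cast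
  rfl

/-- the zeta value -/
noncomputable def zt (d : ℕ) : ℝ := ∑' l : ℕ, 1 / ((l : ℝ) + 1) ^ d

theorem zt_summable (d : ℕ) (hd : 2 ≤ d) : Summable fun l : ℕ => 1 / ((l : ℝ) + 1) ^ d := by
  have h := (Real.summable_one_div_nat_pow (p := d)).2 (by omega)
  have h1 := (summable_nat_add_iff 1).2 h
  refine h1.congr fun j => ?_
  push_cast
  rfl

theorem dz_even (s : ℕ) (hs : 1 ≤ s) :
    ∑ i ∈ range s, dz (2 * s + 1 - 2 * (i + 1)) (2 * (i + 1)) =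
      -(∑' N : ℕ, lam (N + 1) / ((N : ℝ) + 1) ^ (2 * s)) + zt (2 * s + 1) / 4 := by
  have h1 := dz_sum (2 * s) s (by omega) le_rfl
  have h2 := aa_sum (2 * s) (by omega)
  have hA := sum_of_sqrt (2 * s) (by omega) 2 (fun n => H (2 * (n + 1)) / 2) (fun n => by
    rw [abs_div, abs_two]
    have := H_bound2 n
    linarith)
  have hL : Summable fun N : ℕ => lam (N + 1) / ((N : ℝ) + 1) ^ (2 * s) :=
    sum_of_sqrt (2 * s) (by omega) 1 (fun n => lam (n + 1)) (fun n => by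
      refine (lam_bound _).trans ?_
      rw [one_mul, Real.one_le_sqrt]
      linarith [(Nat.cast_nonneg n : (0 : ℝ) ≤ n)])
  have hZ := (zt_summable (2 * s + 1) (by omega)).div_const 4
  have h3 : HasSum (fun l : ℕ => ∑ k ∈ Ico 1 (l + 1), 1 / (k : ℝ) ^ (2 * s - 1) *
      ((k : ℝ) / ((l + 1 : ℕ) : ℝ)) ^ (2 * s) / (((l + 1 : ℕ) : ℝ) ^ 2 - (k : ℝ) ^ 2))
      (∑' n : ℕ, H (2 * (n + 1)) / 2 / ((n : ℝ) + 1) ^ (2 * s) +
        ∑' N : ℕ, lam (N + 1) / ((N : ℝ) + 1) ^ (2 * s) - ∑' l : ℕ, 1 / ((l : ℝ) + 1) ^ (2 * s + 1) / 4) := by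
    refine ((hA.hasSum.add hL.hasSum).sub hZ.hasSum).congr_fun fun l => ?_
    rw [bb_even s l hs, lam_eq, pow_succ]
    have h6 : ((l : ℝ) + 1) ≠ 0 := by positivity
    have h7 : ((l : ℝ) + 1) ^ (2 * s) ≠ 0 := by positivity
    generalize ((l : ℝ) + 1) ^ (2 * s) = L at *
    field_simp
    ring
  have h4 := (h2.sub h3).unique (h1.congr_fun fun l => by rw [← sum_sub_distrib])
  rw [← h4, tsum_div_const, zt]
  ring

theorem dz_odd (s : ℕ) (hs : 1 ≤ s) :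
    ∑ i ∈ range s, dz (2 * s + 1 + 1 - 2 * (i + 1)) (2 * (i + 1)) = 3 / 4 * zt (2 * s + 1 + 1) := by
  have h1 := dz_sum (2 * s + 1) s (by omega) (by omega)
  have h2 := aa_sum (2 * s + 1) (by omega)
  have hA := sum_of_sqrt (2 * s + 1) (by omega) 2 (fun n => H (2 * (n + 1)) / 2) (fun n => by
    rw [abs_div, abs_two]
    have := H_bound2 n
    linarith)
  have hZ := (zt_summable (2 * s + 1 + 1) (by omega)).mul_left (3 / 4)
  have h3 : HasSum (fun l : ℕ => ∑ k ∈ Ico 1 (l + 1), 1 / (k : ℝ) ^ (2 * s + 1 - 1) *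
      ((k : ℝ) / ((l + 1 : ℕ) : ℝ)) ^ (2 * s) / (((l + 1 : ℕ) : ℝ) ^ 2 - (k : ℝ) ^ 2))
      (∑' n : ℕ, H (2 * (n + 1)) / 2 / ((n : ℝ) + 1) ^ (2 * s + 1) -
        ∑' l : ℕ, 3 / 4 * (1 / ((l : ℝ) + 1) ^ (2 * s + 1 + 1))) := by
    refine (hA.hasSum.sub hZ.hasSum).congr_fun fun l => ?_
    rw [bb_odd s l, pow_succ _ (2 * s + 1)]
    have h6 : ((l : ℝ) + 1) ≠ 0 := by positivity
    have h7 : ((l : ℝ) + 1) ^ (2 * s + 1) ≠ 0 := by positivity
    generalize ((l : ℝ) + 1) ^ (2 * s + 1) = L at *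
    field_simp
  have h4 := (h2.sub h3).unique (h1.congr_fun fun l => by rw [← sum_sub_distrib])
  rw [← h4, tsum_mul_left, zt]
  ring

/-- the right-hand side of the identity is the left-hand side exactly for even `d` -/
theorem compare (d : ℕ) (hd : 3 ≤ d) :
    (2 * ∑' N : ℕ, lam (N + 1) / ((N : ℝ) + 1) ^ d =
      zt (d + 1) / 2 - 2 * ∑ i ∈ range (d / 2), dz (d + 1 - 2 * (i + 1)) (2 * (i + 1))) ↔ Even d := by
  rcases Nat.even_or_odd' d with ⟨s, hs | hs⟩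
  · have h1 : d / 2 = s := by omega
    rw [h1, hs, dz_even s (by omega)]
    refine iff_of_true (by ring) ⟨s, by ring⟩
  · have h1 : d / 2 = s := by omega
    rw [h1, hs, dz_odd s (by omega)]
    refine iff_of_false ?_ (by
      rw [Nat.not_even_iff_odd]
      exact ⟨s, rfl⟩)
    have hL : Summable fun N : ℕ => lam (N + 1) / ((N : ℝ) + 1) ^ (2 * s + 1) :=
      sum_of_sqrt (2 * s + 1) (by omega) 1 (fun n => lam (n + 1)) (fun n => by
        refine (lam_bound _).trans ?_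
        rw [one_mul, Real.one_le_sqrt]
        linarith [(Nat.cast_nonneg n : (0 : ℝ) ≤ n)])
    have hZ := zt_summable (2 * s + 1 + 1) (by omega)
    have h2 : HasSum (fun N : ℕ => (2 * lam (N + 1) + 1 / ((N : ℝ) + 1)) / ((N : ℝ) + 1) ^ (2 * s + 1))
        (2 * ∑' N : ℕ, lam (N + 1) / ((N : ℝ) + 1) ^ (2 * s + 1) + zt (2 * s + 1 + 1)) := by
      have h3 := (hL.mul_left 2).hasSum.add hZ.hasSum
      rw [tsum_mul_left] at h3
      refine h3.congr_fun fun N => ?_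
      rw [pow_succ _ (2 * s + 1)]
      have h6 : ((N : ℝ) + 1) ≠ 0 := by positivity
      have h7 : ((N : ℝ) + 1) ^ (2 * s + 1) ≠ 0 := by positivity
      generalize ((N : ℝ) + 1) ^ (2 * s + 1) = L at *
      field_simp
    have h3 : ∀ N : ℕ, lam (N + 1) ≤ -1 / 2 := by
      intro N
      induction N with
      | zero => simp [lam]; norm_num
      | succ N ih =>
        have h1 : lam (N + 1 + 1) = lam (N + 1) - 1 / (2 * (((N + 1 : ℕ) : ℝ) + 1) * (2 * ((N + 1 : ℕ) : ℝ) + 1)) := by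
          unfold lam
          rw [sum_range_succ _ (N + 1)]
          ring
        have h5 : 0 ≤ 1 / (2 * (((N + 1 : ℕ) : ℝ) + 1) * (2 * ((N + 1 : ℕ) : ℝ) + 1)) := by positivity
        linarith
    have h4 : ∀ N : ℕ, (2 * lam (N + 1) + 1 / ((N : ℝ) + 1)) / ((N : ℝ) + 1) ^ (2 * s + 1) ≤ 0 := by
      intro N
      apply div_nonpos_of_nonpos_of_nonneg _ (by positivity)
      have h5 : 1 / ((N : ℝ) + 1) ≤ 1 := by
        rw [div_le_one (by positivity)]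
        linarith [(Nat.cast_nonneg N : (0 : ℝ) ≤ N)]
      linarith [h3 N]
    have h5 : 2 * ∑' N : ℕ, lam (N + 1) / ((N : ℝ) + 1) ^ (2 * s + 1) + zt (2 * s + 1 + 1) < 0 := by
      have h6 : HasSum (fun N : ℕ => -((2 * lam (N + 1) + 1 / ((N : ℝ) + 1)) / ((N : ℝ) + 1) ^ (2 * s + 1)))
        (-(2 * ∑' N : ℕ, lam (N + 1) / ((N : ℝ) + 1) ^ (2 * s + 1) + zt (2 * s + 1 + 1))) := h2.neg
      have h7 := le_hasSum h6 1 (fun N _ => by linarith [h4 N])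
      have h8 : (2 * lam (1 + 1) + 1 / (((1 : ℕ) : ℝ) + 1)) / (((1 : ℕ) : ℝ) + 1) ^ (2 * s + 1) < 0 := by
        apply div_neg_of_neg_of_pos _ (by positivity)
        have := h3 1
        push_cast
        linarith
      linarith
    intro h6
    linarith

end Pool.Agent.X109.SH
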